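import Mathlib

/-!
# Distributive varieties of Lie algebras are not defined in bounded degree

Let `F` be a field of characteristic `0` and `N` a natural number.  We construct a variety of Lie
algebras over `F` whose subvarieties form a chain, so that its lattice of subvarieties is
distributive, and which is not defined by identities of degree at most `N`.

The variety consists of the Lie algebras satisfying the ideal of identities `T1 F N`.  It contains
all identities of the two-dimensional (metabelian) Lie algebra `F × F` with bracket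
`[(a, m), (a', m')] = (0, a m' - a' m)` and the left-normed bracket of `N + 1` variables.
The ideals of identities above the identities of `F × F` form a chain (`compare`): such an ideal
is the sum of its homogeneous components (`homog`), and if it contains a homogeneous element of
degree `n` that is not an identity of `F × F`, then it contains the left-normed bracket of `n`
variables (`claimB`), hence everything of degree at least `n` (`claimC`).
-/

set_option autoImplicit false

universe u w w'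

set_option linter.unusedSectionVars false

namespace Pool.Agent.Results.MP_b4a71d_al.UnboundedDegree

section Defs

variable (F : Type u) [Field F]

/-- the free Lie algebra over `F` on the countable set of variables `x_0, x_1, x_2, …` -/
abbrev L := FreeLieAlgebra F ℕ

/-- a Lie algebra over `F` (no restriction on the dimension) -/
structure Alg where
  /-- the underlying type -/
  carrier : Type u
  [ring : LieRing carrier]
  [alg : LieAlgebra F carrier]

attribute [instance] Alg.ring Alg.alg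

variable {F}

/-- `f` is an identity of the Lie algebra `A` : it vanishes under every substitution -/
def Sat (A : Alg F) (f : L F) : Prop := ∀ v : ℕ → A.carrier, FreeLieAlgebra.lift F v f = 0

/-- the class of all Lie algebras satisfying every identity in `S` -/
def Mod (S : Set (L F)) : Set (Alg F) := {A | ∀ f ∈ S, Sat A f}

/-- varieties -/
def IsVariety (V : Set (Alg F)) : Prop := ∃ S : Set (L F), V = Mod S

/-- `U` is a subvariety of `V` -/
def IsSub (U V : Set (Alg F)) : Prop := IsVariety U ∧ U ⊆ V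

/-- the smallest variety containing both `U` and `W` -/
def join (U W : Set (Alg F)) : Set (Alg F) :=
  {A | ∀ X, IsVariety X → U ⊆ X → W ⊆ X → A ∈ X}

/-- the lattice of subvarieties of `V` is distributive -/
def Distributive (V : Set (Alg F)) : Prop :=
  ∀ U W Z, IsSub U V → IsSub W V → IsSub Z V → U ∩ join W Z = join (U ∩ W) (U ∩ Z)

/-- Lie monomials in the variables, with their degree -/
inductive Mono : ℕ → L F → Prop
  | var (i : ℕ) : Mono 1 (FreeLieAlgebra.of F i)
  | brk {m n : ℕ} {a b : L F} : Mono m a → Mono n b → Mono (m + n) ⁅a, b⁆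

/-- the elements of `L(X)` of degree at most `N` (zero included) -/
noncomputable def degLE (N : ℕ) : Submodule F (L F) := Submodule.span F {a | ∃ m ≤ N, Mono m a}

/-- `V` is defined by identities of degree at most `N` -/
def DefinedInDegree (V : Set (Alg F)) (N : ℕ) : Prop :=
  ∃ S : Set (L F), (∀ f ∈ S, f ∈ degLE N) ∧ V = Mod S

theorem isVariety_inter {U W : Set (Alg F)} (hU : IsVariety U) (hW : IsVariety W) :
    IsVariety (U ∩ W) := by
  obtain ⟨S, rfl⟩ := hU
  obtain ⟨T, rfl⟩ := hW
  refine ⟨S ∪ T, ?_⟩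
  ext A
  constructor
  · rintro ⟨h1, h2⟩ f (hf | hf)
    · exact h1 f hf
    · exact h2 f hf
  · intro h
    exact ⟨fun f hf => h f (Or.inl hf), fun f hf => h f (Or.inr hf)⟩

/-- the join is a variety -/
theorem isVariety_join (U W : Set (Alg F)) : IsVariety (join U W) := by
  refine ⟨{f | ∀ A, A ∈ U ∪ W → Sat A f}, ?_⟩
  ext A
  constructor
  · intro h f hf
    have := h (Mod {f | ∀ A, A ∈ U ∪ W → Sat A f}) ⟨_, rfl⟩
      (fun B hB g hg => hg B (Or.inl hB)) (fun B hB g hg => hg B (Or.inr hB))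
    exact this f hf
  · rintro h X ⟨S, rfl⟩ hU hW f hf
    refine h f fun B hB => ?_
    rcases hB with hB | hB
    · exact hU hB f hf
    · exact hW hB f hf

/-- a chain is distributive -/
theorem distributive_of_chain {V : Set (Alg F)}
    (h : ∀ U W, IsSub U V → IsSub W V → U ⊆ W ∨ W ⊆ U) : Distributive V := by
  have hj : ∀ U W : Set (Alg F), IsVariety W → U ⊆ W → join U W = W := by
    intro U W hW hUW
    ext A
    constructor
    · intro hA; exact hA W hW hUW subset_rfl
    · intro hA X _ _ hX; exact hX hA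
  have hj' : ∀ U W : Set (Alg F), IsVariety W → U ⊆ W → join W U = W := by
    intro U W hW hUW
    ext A
    constructor
    · intro hA; exact hA W hW subset_rfl hUW
    · intro hA X _ hX _; exact hX hA
  intro U W Z hU hW hZ
  rcases h W Z hW hZ with h1 | h1
  · rw [hj W Z hZ.1 h1, hj (U ∩ W) (U ∩ Z) (isVariety_inter hU.1 hZ.1)
      (Set.inter_subset_inter_right _ h1)]
  · rw [hj' Z W hW.1 h1, hj' (U ∩ Z) (U ∩ W) (isVariety_inter hU.1 hW.1)
      (Set.inter_subset_inter_right _ h1)]

end Defs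

/-! ## The metabelian Lie algebras `B × B` -/

section Cx

/-- the Lie algebra `B × B` with bracket `[(a, m), (a', m')] = (0, a m' - a' m)` -/
def Cx (B : Type w) : Type w := B × B

variable {F : Type u} [Field F] {B : Type w} [CommRing B] [Algebra F B]
  {B' : Type w'} [CommRing B'] [Algebra F B']

instance : AddCommGroup (Cx B) := inferInstanceAs (AddCommGroup (B × B))
instance : Module F (Cx B) := inferInstanceAs (Module F (B × B))

instance : Bracket (Cx B) (Cx B) := ⟨fun x y => (0, x.1 * y.2 - y.1 * x.2)⟩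

theorem Cx.lie_fst (x y : Cx B) : (⁅x, y⁆ : Cx B).1 = 0 := rfl
theorem Cx.lie_snd (x y : Cx B) : (⁅x, y⁆ : Cx B).2 = x.1 * y.2 - y.1 * x.2 := rfl
theorem Cx.add_fst (x y : Cx B) : (x + y : Cx B).1 = x.1 + y.1 := rfl
theorem Cx.add_snd (x y : Cx B) : (x + y : Cx B).2 = x.2 + y.2 := rfl
theorem Cx.smul_fst (c : F) (x : Cx B) : (c • x : Cx B).1 = c • x.1 := rfl
theorem Cx.smul_snd (c : F) (x : Cx B) : (c • x : Cx B).2 = c • x.2 := rfl
theorem Cx.zero_fst : (0 : Cx B).1 = 0 := rfl
theorem Cx.zero_snd : (0 : Cx B).2 = 0 := rfl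

theorem Cx.ext {x y : Cx B} (h1 : x.1 = y.1) (h2 : x.2 = y.2) : x = y := Prod.ext h1 h2

instance : LieRing (Cx B) where
  add_lie x y z := by
    apply Cx.ext
    · simp [Cx.lie_fst, Cx.add_fst]
    · simp only [Cx.lie_snd, Cx.add_fst, Cx.add_snd]; ring
  lie_add x y z := by
    apply Cx.ext
    · simp [Cx.lie_fst, Cx.add_fst]
    · simp only [Cx.lie_snd, Cx.add_fst, Cx.add_snd]; ring
  lie_self x := by
    apply Cx.ext
    · rfl
    · simp only [Cx.lie_snd, Cx.zero_snd]; ring
  leibniz_lie x y z := by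
    apply Cx.ext
    · simp [Cx.lie_fst, Cx.add_fst]
    · simp only [Cx.lie_snd, Cx.lie_fst, Cx.add_snd]; ring

instance : LieAlgebra F (Cx B) where
  lie_smul c x y := by
    apply Cx.ext
    · simp [Cx.lie_fst, Cx.smul_fst]
    · simp only [Cx.lie_snd, Cx.smul_fst, Cx.smul_snd, smul_sub, Algebra.mul_smul_comm,
        Algebra.smul_mul_assoc]

/-- functoriality -/
def Cx.map (φ : B →ₐ[F] B') : Cx B →ₗ⁅F⁆ Cx B' where
  toFun x := (φ x.1, φ x.2)
  map_add' x y := Cx.ext (map_add φ _ _) (map_add φ _ _)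
  map_smul' c x := Cx.ext (map_smul φ _ _) (map_smul φ _ _)
  map_lie' := by
    intro x y
    apply Cx.ext
    · show φ 0 = 0
      exact map_zero φ
    · show φ (x.1 * y.2 - y.1 * x.2) = φ x.1 * φ y.2 - φ y.1 * φ x.2
      simp

end Cx

/-! ## Left-normed brackets -/

section LN

variable (F : Type u) [Field F] (M : Type w) [LieRing M] [LieAlgebra F M]

/-- the bracket as a bilinear map -/
def brL : M →ₗ[F] M →ₗ[F] M := LinearMap.mk₂ F (fun x y => ⁅x, y⁆) add_lie smul_lie lie_add
  (fun c m n => lie_smul c m n)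

/-- the left-normed bracket `[…[[v_0, v_1], v_2], …, v_n]` -/
noncomputable def LN : (n : ℕ) → MultilinearMap F (fun _ : Fin (n + 1) => M) M
  | 0 => MultilinearMap.ofSubsingleton F M M (0 : Fin 1) LinearMap.id
  | (n + 1) => ((brL F M).compMultilinearMap (LN n)).uncurryRight

variable {F M}

theorem LN_zero (v : Fin 1 → M) : LN F M 0 v = v 0 := rfl

theorem LN_succ (n : ℕ) (v : Fin (n + 2) → M) :
    LN F M (n + 1) v = ⁅LN F M n (fun i => v i.castSucc), v (Fin.last _)⁆ := rfl

theorem LN_hom {M' : Type w'} [LieRing M'] [LieAlgebra F M'] (φ : M →ₗ⁅F⁆ M') (n : ℕ)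
    (v : Fin (n + 1) → M) : φ (LN F M n v) = LN F M' n (fun i => φ (v i)) := by
  induction n with
  | zero => rfl
  | succ n ih => rw [LN_succ, LN_succ, LieHom.map_lie, ih]

end LN


section LNCx

variable {F : Type u} [Field F] {B : Type w} [CommRing B] [Algebra F B]

/-- the product over all `j` of the first components, except that at `i` the second is taken -/
def Pi1 {n : ℕ} (v : Fin n → Cx B) (i : Fin n) : B :=
  ∏ j, if j = i then (v j).2 else (v j).1

theorem Pi1_perm {n : ℕ} (v : Fin n → Cx B) (τ : Equiv.Perm (Fin n)) (i : Fin n) :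
    Pi1 (fun j => v (τ j)) i = Pi1 v (τ i) := by
  unfold Pi1
  rw [← Equiv.prod_comp τ (fun j => if j = τ i then (v j).2 else (v j).1)]
  refine Finset.prod_congr rfl fun j _ => ?_
  simp [EmbeddingLike.apply_eq_iff_eq]

theorem Pi1_castSucc {n : ℕ} (v : Fin (n + 1) → Cx B) (i : Fin n) :
    Pi1 v i.castSucc = Pi1 (fun j => v j.castSucc) i * (v (Fin.last n)).1 := by
  unfold Pi1
  rw [Fin.prod_univ_castSucc]
  congr 1
  · refine Finset.prod_congr rfl fun j _ => ?_
    simp
  · rw [if_neg]
    exact (Fin.castSucc_lt_last i).ne'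

theorem LN_Cx (n : ℕ) (v : Fin (n + 2) → Cx B) :
    (LN F (Cx B) (n + 1) v).1 = 0 ∧
    (LN F (Cx B) (n + 1) v).2 = (-1) ^ n * (Pi1 v 1 - Pi1 v 0) := by
  induction n with
  | zero =>
    refine ⟨rfl, ?_⟩
    rw [LN_succ, LN_zero, Cx.lie_snd]
    simp only [Pi1]
    simp [Fin.last]
    ring
  | succ n ih =>
    refine ⟨rfl, ?_⟩
    rw [LN_succ, Cx.lie_snd, (ih _).1, (ih _).2]
    have h1 : (1 : Fin (n + 3)) = (1 : Fin (n + 2)).castSucc := rfl
    have h0 : (0 : Fin (n + 3)) = (0 : Fin (n + 2)).castSucc := rfl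
    rw [h1, h0, Pi1_castSucc, Pi1_castSucc]
    ring

end LNCx

/-! ## Full linearisation -/

section Pol

variable {F : Type u} [Field F] {M : Type w} [AddCommGroup M] [Module F M]
  {M' : Type w'} [AddCommGroup M'] [Module F M'] {ι : Type} [Fintype ι] [DecidableEq ι]

theorem sum_supersets (T : Finset ι) :
    (∑ S : Finset ι, if T ⊆ S then ((-1 : F) ^ Sᶜ.card) else 0)
      = if T = Finset.univ then 1 else 0 := by
  have e1 : (∑ S : Finset ι, if T ⊆ S then ((-1 : F) ^ Sᶜ.card) else 0)
      = ∑ S : Finset ι, if S ⊆ Tᶜ then ((-1 : F) ^ S.card) else 0 := by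
    rw [← Equiv.sum_comp (Equiv.ofBijective (fun S : Finset ι => Sᶜ) compl_bijective)]
    refine Finset.sum_congr rfl fun S _ => ?_
    simp only [Equiv.ofBijective_apply, compl_compl]
    congr 1
    rw [eq_iff_iff]
    exact ⟨fun h => by rw [← compl_compl S]; exact Finset.compl_subset_compl.mpr h,
      fun h => by rw [← compl_compl T]; exact Finset.compl_subset_compl.mpr h⟩
  rw [e1, ← Finset.sum_filter]
  have e2 : (Finset.univ.filter fun S : Finset ι => S ⊆ Tᶜ) = (Tᶜ).powerset := by
    ext S; simp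
  rw [e2]
  have e3 := congrArg (fun z : ℤ => (z : F)) (Finset.sum_powerset_neg_one_pow_card (x := Tᶜ))
  simp only [Int.cast_sum, Int.cast_pow, Int.cast_neg, Int.cast_one, Int.cast_ite,
    Int.cast_zero] at e3
  rw [e3]
  congr 1
  rw [eq_iff_iff, Finset.compl_eq_empty_iff]

/-- the full linearisation as an alternating sum over subsets -/
theorem polM (f : MultilinearMap F (fun _ : ι => M) M') (v : ι → ι → M) :
    ∑ S : Finset ι, ((-1 : F) ^ Sᶜ.card) • f (fun j => ∑ r ∈ S, v j r)
      = ∑ ρ : Equiv.Perm ι, f (fun j => v j (ρ j)) := by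
  have e1 : ∀ S : Finset ι, ((-1 : F) ^ Sᶜ.card) • f (fun j => ∑ r ∈ S, v j r)
      = ∑ r : ι → ι, (if Finset.univ.image r ⊆ S then ((-1 : F) ^ Sᶜ.card) else 0)
          • f (fun j => v j (r j)) := by
    intro S
    have := f.map_sum_finset (fun j r => v j r) (fun _ => S)
    rw [this, Finset.smul_sum]
    rw [← Finset.sum_subset (Finset.subset_univ (Fintype.piFinset fun _ : ι => S))]
    · refine Finset.sum_congr rfl fun r hr => ?_
      rw [if_pos]
      intro x hx
      obtain ⟨j, _, rfl⟩ := Finset.mem_image.mp hx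
      exact Fintype.mem_piFinset.mp hr j
    · intro r _ hr
      rw [if_neg, zero_smul]
      intro h
      exact hr (Fintype.mem_piFinset.mpr fun j => h (Finset.mem_image_of_mem r (Finset.mem_univ j)))
  rw [Finset.sum_congr rfl fun S _ => e1 S, Finset.sum_comm]
  have e2 : ∀ r : ι → ι, ∑ S : Finset ι,
      (if Finset.univ.image r ⊆ S then ((-1 : F) ^ Sᶜ.card) else 0) • f (fun j => v j (r j))
      = if Function.Bijective r then f (fun j => v j (r j)) else 0 := by
    intro r
    rw [← Finset.sum_smul, sum_supersets]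
    by_cases h : Function.Bijective r
    · rw [if_pos h, if_pos, one_smul]
      exact Finset.image_univ_of_surjective h.surjective
    · rw [if_neg h, if_neg, zero_smul]
      intro h'
      apply h
      have hs : Function.Surjective r := by
        intro y
        have : y ∈ Finset.univ.image r := by rw [h']; exact Finset.mem_univ y
        obtain ⟨x, _, hx⟩ := Finset.mem_image.mp this
        exact ⟨x, hx⟩
      exact ⟨Finite.injective_iff_surjective.mpr hs, hs⟩
  rw [Finset.sum_congr rfl fun r _ => e2 r, ← Finset.sum_filter]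
  symm
  refine Finset.sum_bij (fun ρ _ => (ρ : ι → ι)) ?_ ?_ ?_ ?_
  · intro ρ _; simp
  · intro ρ _ ρ' _ h; exact Equiv.coe_fn_injective h
  · intro r hr
    exact ⟨Equiv.ofBijective r (by simpa using hr), Finset.mem_univ _, rfl⟩
  · intro ρ _; rfl

end Pol

/-! ## Extraction of components -/

section EL

variable {F : Type u} [Field F] [CharZero F] {W : Type w} [AddCommGroup W] [Module F W]

theorem extract (J : Submodule F W) (c : ℕ → W) (n : ℕ)
    (h : ∀ t : F, ∑ k ∈ Finset.range n, t ^ k • c k ∈ J) : ∀ k < n, c k ∈ J := by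
  intro k hk
  rw [← Submodule.Quotient.mk_eq_zero, ← Module.forall_dual_apply_eq_zero_iff F]
  intro φ
  set p : Polynomial F := ∑ k ∈ Finset.range n,
    Polynomial.C (φ (Submodule.Quotient.mk (c k))) * Polynomial.X ^ k with hp
  have hp0 : p = 0 := by
    apply Polynomial.funext
    intro t
    rw [hp, Polynomial.eval_finsetSum, Polynomial.eval_zero]
    have h1 : φ (Submodule.Quotient.mk (∑ k ∈ Finset.range n, t ^ k • c k)) = 0 := by
      rw [(Submodule.Quotient.mk_eq_zero J).mpr (h t), map_zero]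
    rw [← Submodule.mkQ_apply, map_sum, map_sum] at h1
    rw [← h1]
    refine Finset.sum_congr rfl fun i _ => ?_
    rw [Polynomial.eval_mul, Polynomial.eval_C, Polynomial.eval_pow, Polynomial.eval_X, map_smul,
      map_smul, smul_eq_mul, mul_comm]
    rfl
  have h2 : p.coeff k = φ (Submodule.Quotient.mk (c k)) := by
    rw [hp, Polynomial.finsetSum_coeff]
    simp only [Polynomial.coeff_C_mul_X_pow]
    rw [Finset.sum_ite_eq (Finset.range n) k]
    rw [if_pos (Finset.mem_range.mpr hk)]
  rw [← h2, hp0, Polynomial.coeff_zero]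

end EL


/-! ## Decomposition of the free Lie algebra -/

section Span

variable {F : Type u} [Field F]

/-- the variable `x_i` -/
noncomputable abbrev xx (i : ℕ) : L F := FreeLieAlgebra.of F i

variable (F) in
/-- the span of the left-normed brackets of `n + 1` variables -/
noncomputable def G (n : ℕ) : Submodule F (L F) :=
  Submodule.span F (Set.range fun l : Fin (n + 1) → ℕ => LN F (L F) n (fun j => xx (l j)))

theorem G_of (i : ℕ) : (xx i : L F) ∈ G F 0 := Submodule.subset_span ⟨fun _ => i, rfl⟩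

theorem G_lie_of {n : ℕ} {a : L F} (ha : a ∈ G F n) (i : ℕ) : ⁅a, xx i⁆ ∈ G F (n + 1) := by
  unfold G at ha
  induction ha using Submodule.span_induction with
  | mem x hx =>
    obtain ⟨l, rfl⟩ := hx
    refine Submodule.subset_span ⟨Fin.snoc l i, ?_⟩
    show LN F (L F) (n + 1) _ = _
    rw [LN_succ]
    simp
  | zero => rw [zero_lie]; exact Submodule.zero_mem _
  | add a b _ _ ha hb => rw [add_lie]; exact Submodule.add_mem _ ha hb
  | smul c a _ ha => rw [smul_lie]; exact Submodule.smul_mem _ _ ha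

theorem G_lie {n : ℕ} : ∀ {m : ℕ} {a b : L F}, a ∈ G F m → b ∈ G F n → ⁅a, b⁆ ∈ G F (m + n + 1) := by
  induction n with
  | zero =>
    intro m a b ha hb
    unfold G at hb
    induction hb using Submodule.span_induction with
    | mem x hx =>
      obtain ⟨l, rfl⟩ := hx
      exact G_lie_of ha _
    | zero => rw [lie_zero]; exact Submodule.zero_mem _
    | add x y _ _ hx hy => rw [lie_add]; exact Submodule.add_mem _ hx hy
    | smul c x _ hx => rw [lie_smul]; exact Submodule.smul_mem _ _ hx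
  | succ n ih =>
    intro m a b ha hb
    unfold G at hb
    induction hb using Submodule.span_induction with
    | mem x hx =>
      obtain ⟨l, rfl⟩ := hx
      show ⁅a, LN F (L F) (n + 1) _⁆ ∈ _
      rw [LN_succ, leibniz_lie]
      set b' := LN F (L F) n (fun i => xx (l i.castSucc)) with hb'
      have hb'G : b' ∈ G F n := Submodule.subset_span ⟨fun i => l i.castSucc, rfl⟩
      refine Submodule.add_mem _ ?_ ?_
      · exact G_lie_of (ih ha hb'G) _
      · rw [← lie_skew]
        refine Submodule.neg_mem _ ?_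
        have := ih (G_lie_of ha (l (Fin.last (n + 1)))) hb'G
        have e : m + 1 + n + 1 = m + (n + 1) + 1 := by ring
        rwa [e] at this
    | zero => rw [lie_zero]; exact Submodule.zero_mem _
    | add x y _ _ hx hy => rw [lie_add]; exact Submodule.add_mem _ hx hy
    | smul c x _ hx => rw [lie_smul]; exact Submodule.smul_mem _ _ hx

variable (F) in
/-- sums of elements of `G 0, …, G (N - 1)` -/
noncomputable def Dec (N : ℕ) : Submodule F (L F) where
  carrier := {f | ∃ c : ℕ → L F, (∀ k, c k ∈ G F k) ∧ f = ∑ k ∈ Finset.range N, c k}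
  zero_mem' := ⟨0, fun k => Submodule.zero_mem _, by simp⟩
  add_mem' := by
    rintro _ _ ⟨c, hc, rfl⟩ ⟨d, hd, rfl⟩
    exact ⟨fun k => c k + d k, fun k => Submodule.add_mem _ (hc k) (hd k), by
      rw [Finset.sum_add_distrib]⟩
  smul_mem' := by
    rintro t _ ⟨c, hc, rfl⟩
    exact ⟨fun k => t • c k, fun k => Submodule.smul_mem _ _ (hc k), by rw [Finset.smul_sum]⟩

theorem G_le_Dec {k N : ℕ} (h : k < N) : G F k ≤ Dec F N := by
  intro f hf
  refine ⟨fun j => if j = k then f else 0, ?_, ?_⟩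
  · intro j
    show (if j = k then f else 0) ∈ G F j
    split_ifs with hj
    · rw [hj]; exact hf
    · exact Submodule.zero_mem _
  · rw [Finset.sum_ite_eq' (Finset.range N) k, if_pos (Finset.mem_range.mpr h)]

theorem Dec_mono {M N : ℕ} (h : M ≤ N) : Dec F M ≤ Dec F N := by
  rintro _ ⟨c, hc, rfl⟩
  exact Submodule.sum_mem _ fun k hk => G_le_Dec ((Finset.mem_range.mp hk).trans_le h) (hc k)

theorem Dec_lie {M N : ℕ} {a b : L F} (ha : a ∈ Dec F M) (hb : b ∈ Dec F N) :
    ⁅a, b⁆ ∈ Dec F (M + N) := by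
  obtain ⟨c, hc, rfl⟩ := ha
  obtain ⟨d, hd, rfl⟩ := hb
  rw [sum_lie]
  refine Submodule.sum_mem _ fun i hi => ?_
  rw [lie_sum]
  refine Submodule.sum_mem _ fun j hj => ?_
  have hi' := Finset.mem_range.mp hi
  have hj' := Finset.mem_range.mp hj
  exact G_le_Dec (by omega) (G_lie (hc i) (hd j))

theorem free_induction (K : LieSubalgebra F (L F)) (h : ∀ i, (xx i : L F) ∈ K) (f : L F) :
    f ∈ K := by
  have e : K.incl.comp (FreeLieAlgebra.lift F fun i => (⟨xx i, h i⟩ : K)) = LieHom.id := by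
    apply FreeLieAlgebra.hom_ext
    intro i
    simp
  have := congrArg (fun φ : L F →ₗ⁅F⁆ L F => φ f) e
  simp only [LieHom.id_apply] at this
  rw [← this]
  exact Subtype.property _

theorem exists_Dec (f : L F) : ∃ N, f ∈ Dec F N := by
  let K : LieSubalgebra F (L F) :=
    { carrier := {f | ∃ N, f ∈ Dec F N}
      zero_mem' := ⟨0, Submodule.zero_mem _⟩
      add_mem' := by
        rintro a b ⟨M, hM⟩ ⟨N, hN⟩
        exact ⟨max M N, Submodule.add_mem _ (Dec_mono (le_max_left _ _) hM)
          (Dec_mono (le_max_right _ _) hN)⟩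
      smul_mem' := by
        rintro t a ⟨M, hM⟩
        exact ⟨M, Submodule.smul_mem _ _ hM⟩
      lie_mem' := by
        rintro a b ⟨M, hM⟩ ⟨N, hN⟩
        exact ⟨M + N, Dec_lie hM hN⟩ }
  exact free_induction K (fun i => ⟨1, G_le_Dec zero_lt_one (G_of i)⟩) f

theorem Mono_G {m : ℕ} {a : L F} (h : Mono m a) : ∃ k, m = k + 1 ∧ a ∈ G F k := by
  induction h with
  | var i => exact ⟨0, rfl, G_of i⟩
  | brk _ _ iha ihb =>
    obtain ⟨k, rfl, hk⟩ := iha
    obtain ⟨l, rfl, hl⟩ := ihb
    exact ⟨k + l + 1, by ring, G_lie hk hl⟩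

theorem degLE_Dec {N : ℕ} {f : L F} (h : f ∈ degLE N) : f ∈ Dec F N := by
  unfold degLE at h
  induction h using Submodule.span_induction with
  | mem x hx =>
    obtain ⟨m, hm, hx⟩ := hx
    obtain ⟨k, rfl, hk⟩ := Mono_G hx
    exact G_le_Dec (by omega) hk
  | zero => exact Submodule.zero_mem _
  | add x y _ _ hx hy => exact Submodule.add_mem _ hx hy
  | smul c x _ hx => exact Submodule.smul_mem _ _ hx

theorem scale_G {k : ℕ} {f : L F} (h : f ∈ G F k) (t : F) :
    FreeLieAlgebra.lift F (fun i => t • (xx i : L F)) f = t ^ (k + 1) • f := by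
  unfold G at h
  induction h using Submodule.span_induction with
  | mem x hx =>
    obtain ⟨l, rfl⟩ := hx
    show FreeLieAlgebra.lift F _ (LN F (L F) k _) = t ^ (k + 1) • LN F (L F) k _
    rw [LN_hom]
    simp only [FreeLieAlgebra.lift_of_apply]
    rw [MultilinearMap.map_smul_univ]
    simp
  | zero => rw [map_zero, smul_zero]
  | add x y _ _ hx hy => rw [map_add, hx, hy, smul_add]
  | smul c x _ hx => rw [map_smul, hx, smul_comm]

/-- T-ideals -/
def IsT (I : LieIdeal F (L F)) : Prop := ∀ g : ℕ → L F, ∀ f ∈ I, FreeLieAlgebra.lift F g f ∈ I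

theorem homog [CharZero F] {I : LieIdeal F (L F)} (hI : IsT I) {N : ℕ} (c : ℕ → L F)
    (hc : ∀ k, c k ∈ G F k) (h : ∑ k ∈ Finset.range N, c k ∈ I) : ∀ k < N, c k ∈ I := by
  intro k hk
  have := extract I.toSubmodule (fun k => Nat.casesOn k (0 : L F) c) (N + 1) ?_ (k + 1)
    (Nat.succ_lt_succ hk)
  · exact this
  · intro t
    rw [Finset.sum_range_succ']
    have h1 := hI (fun i => t • (xx i : L F)) _ h
    rw [map_sum, Finset.sum_congr rfl fun j _ => scale_G (hc j) t] at h1
    simpa using h1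

end Span


/-! ## T-ideals containing the identities of `F × F` -/

section Claims

variable {F : Type u} [Field F]

/-- identities of a class of algebras -/
def Th (U : Set (Alg F)) : LieIdeal F (L F) where
  carrier := {f | ∀ A ∈ U, Sat A f}
  zero_mem' := fun A _ v => map_zero _
  add_mem' := fun {a b} ha hb A hA v => by rw [map_add, ha A hA v, hb A hA v, add_zero]
  smul_mem' := fun c a ha A hA v => by rw [map_smul, ha A hA v, smul_zero]
  lie_mem := fun {x m} hm A hA v => by
    rw [LieHom.map_lie, hm A hA v, lie_zero]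

theorem mem_Th {U : Set (Alg F)} {f : L F} : f ∈ Th U ↔ ∀ A ∈ U, Sat A f := Iff.rfl

theorem lift_lift {M : Type w} [LieRing M] [LieAlgebra F M] (v : ℕ → M) (g : ℕ → L F) (f : L F) :
    FreeLieAlgebra.lift F v (FreeLieAlgebra.lift F g f)
      = FreeLieAlgebra.lift F (fun i => FreeLieAlgebra.lift F v (g i)) f := by
  have e : (FreeLieAlgebra.lift F v).comp (FreeLieAlgebra.lift F g)
      = FreeLieAlgebra.lift F (fun i => FreeLieAlgebra.lift F v (g i)) := by
    apply FreeLieAlgebra.hom_ext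
    intro i
    simp
  exact congrArg (fun φ : L F →ₗ⁅F⁆ M => φ f) e

theorem isT_Th (U : Set (Alg F)) : IsT (Th U) := by
  intro g f hf A hA v
  rw [lift_lift]
  exact hf A hA _

variable (F) in
/-- the Lie algebra `F × F` -/
def cxAlg : Alg F := ⟨Cx F⟩

variable (F) in
/-- its identities -/
def K0 : LieIdeal F (L F) := Th {cxAlg F}

theorem mem_K0 {f : L F} : f ∈ K0 F ↔ ∀ v : ℕ → Cx F, FreeLieAlgebra.lift F v f = 0 := by
  unfold K0
  rw [mem_Th]
  constructor
  · intro h v; exact h _ rfl v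
  · rintro h A rfl v; exact h v

/-- the left-normed bracket of the first `n + 1` variables -/
noncomputable def wn (F : Type u) [Field F] (n : ℕ) : L F := LN F (L F) n (fun j => xx (j : ℕ))

theorem claimC {I : LieIdeal F (L F)} (hI : IsT I) {k : ℕ} (hk : wn F k ∈ I) {n : ℕ} (hn : k ≤ n) :
    ∀ f ∈ G F n, f ∈ I := by
  have key : ∀ l : Fin (n + 1) → ℕ, LN F (L F) n (fun j => xx (l j)) ∈ I := by
    induction n, hn using Nat.le_induction with
    | base =>
      intro l
      have h1 := hI (fun i => if h : i < k + 1 then xx (l ⟨i, h⟩) else 0) _ hk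
      rw [wn, LN_hom] at h1
      have e : (fun i : Fin (k + 1) => FreeLieAlgebra.lift F
          (fun i => if h : i < k + 1 then (xx (l ⟨i, h⟩) : L F) else 0) (xx (i : ℕ)))
          = fun j => xx (l j) := by
        funext j
        rw [FreeLieAlgebra.lift_of_apply, dif_pos j.2]
      rw [e] at h1
      exact h1
    | succ n hn ih =>
      intro l
      rw [LN_succ]
      exact lie_mem_left F (L F) I _ _ (ih fun i => l i.castSucc)
  intro f hf
  unfold G at hf
  induction hf using Submodule.span_induction with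
  | mem x hx =>
    obtain ⟨l, rfl⟩ := hx
    exact key l
  | zero => exact zero_mem _
  | add x y _ _ hx hy => exact add_mem hx hy
  | smul c x _ hx => exact I.smul_mem c hx

/-- renaming the first variables -/
noncomputable def ren {n : ℕ} (σ : Fin n → Fin n) (k : ℕ) : L F :=
  if h : k < n then xx (σ ⟨k, h⟩ : ℕ) else xx k

theorem lift_ren {M : Type w} [LieRing M] [LieAlgebra F M] {n : ℕ} (σ ρ : Fin (n + 1) → Fin (n + 1))
    (v : ℕ → M) :
    FreeLieAlgebra.lift F v (FreeLieAlgebra.lift F (ren σ)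
      (LN F (L F) n (fun j => xx (ρ j : ℕ)))) = LN F M n (fun j => v (σ (ρ j) : ℕ)) := by
  rw [LN_hom, LN_hom]
  congr 1
  funext j
  rw [FreeLieAlgebra.lift_of_apply]
  unfold ren
  rw [dif_pos (ρ j).2, FreeLieAlgebra.lift_of_apply]

theorem ren_LN {n : ℕ} (σ ρ : Fin (n + 1) → Fin (n + 1)) :
    FreeLieAlgebra.lift F (ren σ) (LN F (L F) n (fun j => xx (ρ j : ℕ)))
      = LN F (L F) n (fun j => xx (σ (ρ j) : ℕ)) := by
  rw [LN_hom]
  congr 1
  funext j
  rw [FreeLieAlgebra.lift_of_apply]
  unfold ren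
  rw [dif_pos (ρ j).2]


/-- first component as a linear map -/
def fstL : Cx F →ₗ[F] F where
  toFun x := x.1
  map_add' _ _ := rfl
  map_smul' _ _ := rfl

/-- second component as a linear map -/
def sndL : Cx F →ₗ[F] F where
  toFun x := x.2
  map_add' _ _ := rfl
  map_smul' _ _ := rfl

theorem cx_ext {x y : Cx F} (h1 : fstL x = fstL y) (h2 : sndL x = sndL y) : x = y :=
  Cx.ext h1 h2

/-- the coefficients -/
def gam {n : ℕ} (κ : Fin (n + 2) → F) (i : Fin (n + 2)) : F :=
  (∑ ρ : Equiv.Perm (Fin (n + 2)), if ρ 1 = i then κ (ρ.symm 0) else 0)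
    - (∑ ρ : Equiv.Perm (Fin (n + 2)), if ρ 0 = i then κ (ρ.symm 0) else 0)

theorem gam_sum {n : ℕ} (κ : Fin (n + 2) → F) : ∑ i, gam κ i = 0 := by
  unfold gam
  rw [Finset.sum_sub_distrib, Finset.sum_comm, Finset.sum_comm (s := Finset.univ (α := Fin (n + 2)))]
  simp

theorem gam_val {n : ℕ} (κ : Fin (n + 2) → F) (P : Fin (n + 2) → F) :
    ∑ i, gam κ i * P i = ∑ ρ : Equiv.Perm (Fin (n + 2)), κ (ρ.symm 0) * (P (ρ 1) - P (ρ 0)) := by
  have h : ∀ a : Fin (n + 2), ∑ i, (∑ ρ : Equiv.Perm (Fin (n + 2)),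
      if ρ a = i then κ (ρ.symm 0) else 0) * P i
      = ∑ ρ : Equiv.Perm (Fin (n + 2)), κ (ρ.symm 0) * P (ρ a) := by
    intro a
    simp only [Finset.sum_mul]
    rw [Finset.sum_comm]
    refine Finset.sum_congr rfl fun ρ _ => ?_
    simp
  unfold gam
  simp only [sub_mul, Finset.sum_sub_distrib, mul_sub]
  rw [h, h]

theorem gam_zero [CharZero F] {n : ℕ} (κ : Fin (n + 2) → F) (hκ : κ 1 ≠ κ 0) : gam κ 0 ≠ 0 := by
  have h : ∀ a : Fin (n + 2), (∑ ρ : Equiv.Perm (Fin (n + 2)),
      if ρ a = 0 then κ (ρ.symm 0) else 0)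
      = (∑ ρ : Equiv.Perm (Fin (n + 2)), if ρ a = 0 then (1 : F) else 0) * κ a := by
    intro a
    rw [Finset.sum_mul]
    refine Finset.sum_congr rfl fun ρ _ => ?_
    by_cases h : ρ a = 0
    · rw [if_pos h, if_pos h, one_mul]
      congr 1
      rw [Equiv.symm_apply_eq, h]
    · rw [if_neg h, if_neg h, zero_mul]
  have h2 : (∑ ρ : Equiv.Perm (Fin (n + 2)), if ρ 1 = 0 then (1 : F) else 0)
      = (∑ ρ : Equiv.Perm (Fin (n + 2)), if ρ 0 = 0 then (1 : F) else 0) := by
    rw [← Equiv.sum_comp (Equiv.mulRight (Equiv.swap (0 : Fin (n + 2)) 1))]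
    refine Finset.sum_congr rfl fun ρ _ => ?_
    simp
  have h3 : (∑ ρ : Equiv.Perm (Fin (n + 2)), if ρ 0 = 0 then (1 : F) else 0) ≠ 0 := by
    rw [Finset.sum_boole]
    have : (Finset.univ.filter fun ρ : Equiv.Perm (Fin (n + 2)) => ρ 0 = 0).card ≠ 0 := by
      rw [Finset.card_ne_zero]
      exact ⟨1, by simp⟩
    exact_mod_cast this
  unfold gam
  rw [h, h, h2, ← mul_sub]
  exact mul_ne_zero h3 (sub_ne_zero.mpr hκ)

theorem gam_exists [CharZero F] {n : ℕ} (κ : Fin (n + 2) → F) (hκ : κ 1 ≠ κ 0) :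
    ∃ i, gam κ i ≠ gam κ 0 := by
  by_contra hcon
  push Not at hcon
  have h1 := gam_sum κ
  rw [Finset.sum_congr rfl fun i _ => hcon i] at h1
  rw [Finset.sum_const, nsmul_eq_mul, Finset.card_univ, Fintype.card_fin] at h1
  rcases mul_eq_zero.mp h1 with h | h
  · have : ((n + 2 : ℕ) : F) ≠ 0 := Nat.cast_ne_zero.mpr (by omega)
    exact this h
  · exact gam_zero κ hκ h

theorem LN_Cx' (n : ℕ) (v : Fin (n + 2) → Cx F) :
    fstL (LN F (Cx F) (n + 1) v) = 0 ∧
    sndL (LN F (Cx F) (n + 1) v) = (-1) ^ n * (Pi1 v 1 - Pi1 v 0) := LN_Cx n v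

theorem EE_val {n : ℕ} (κ : Fin (n + 2) → F) (v : Fin (n + 2) → Cx F) :
    fstL (∑ ρ : Equiv.Perm (Fin (n + 2)), κ (ρ.symm 0) • LN F (Cx F) (n + 1)
      (fun j => v (ρ j))) = 0 ∧
    sndL (∑ ρ : Equiv.Perm (Fin (n + 2)), κ (ρ.symm 0) • LN F (Cx F) (n + 1) (fun j => v (ρ j)))
      = (-1) ^ n * ∑ i, gam κ i * Pi1 v i := by
  constructor
  · rw [map_sum]
    refine Finset.sum_eq_zero fun ρ _ => ?_
    rw [map_smul, (LN_Cx' n _).1, smul_zero]
  · rw [map_sum, gam_val, Finset.mul_sum]
    refine Finset.sum_congr rfl fun ρ _ => ?_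
    rw [map_smul, (LN_Cx' n _).2, Pi1_perm, Pi1_perm, smul_eq_mul]
    ring

theorem claimB2 [CharZero F] {I : LieIdeal F (L F)} (hI : IsT I) (hK : ∀ f ∈ K0 F, f ∈ I) {n : ℕ}
    (κ : Fin (n + 2) → F) (hκ : κ 1 ≠ κ 0)
    (hg : ∑ ρ : Equiv.Perm (Fin (n + 2)), κ (ρ.symm 0) • LN F (L F) (n + 1)
      (fun j => xx (ρ j : ℕ)) ∈ I) : wn F (n + 1) ∈ I := by
  classical
  set g : L F := ∑ ρ : Equiv.Perm (Fin (n + 2)), κ (ρ.symm 0) • LN F (L F) (n + 1)
      (fun j => xx (ρ j : ℕ)) with hgdef
  obtain ⟨i, hi⟩ := gam_exists κ hκ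
  have hi0 : i ≠ 0 := by rintro rfl; exact hi rfl
  set sw : Equiv.Perm (Fin (n + 2)) := Equiv.swap 0 i with hsw
  set σ : Equiv.Perm (Fin (n + 2)) := Equiv.swap 1 i * Equiv.swap 0 1 with hσ
  have hσ1 : σ 1 = 0 := by
    rw [hσ, Equiv.Perm.mul_apply, Equiv.swap_apply_right]
    exact Equiv.swap_apply_of_ne_of_ne (by simp) hi0.symm
  have hσ0 : σ 0 = i := by
    rw [hσ, Equiv.Perm.mul_apply, Equiv.swap_apply_left, Equiv.swap_apply_left]
  have hsg := hI (ren sw) g hg
  set w' : L F := LN F (L F) (n + 1) (fun j => xx (σ j : ℕ)) with hw'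
  have hk : g - FreeLieAlgebra.lift F (ren sw) g - (gam κ 0 - gam κ i) • w' ∈ K0 F := by
    rw [mem_K0]
    intro v
    set v' : Fin (n + 2) → Cx F := fun j => v (j : ℕ) with hv'
    have e1 : FreeLieAlgebra.lift F v g = ∑ ρ : Equiv.Perm (Fin (n + 2)),
        κ (ρ.symm 0) • LN F (Cx F) (n + 1) (fun j => v' (ρ j)) := by
      rw [hgdef, map_sum]
      refine Finset.sum_congr rfl fun ρ _ => ?_
      rw [map_smul, LN_hom]
      simp only [FreeLieAlgebra.lift_of_apply]
      rfl
    have e2 : FreeLieAlgebra.lift F v (FreeLieAlgebra.lift F (ren sw) g)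
        = ∑ ρ : Equiv.Perm (Fin (n + 2)),
        κ (ρ.symm 0) • LN F (Cx F) (n + 1) (fun j => (fun k => v' (sw k)) (ρ j)) := by
      rw [hgdef, map_sum, map_sum]
      refine Finset.sum_congr rfl fun ρ _ => ?_
      rw [map_smul, map_smul, lift_ren]
    have e3 : FreeLieAlgebra.lift F v w' = LN F (Cx F) (n + 1) (fun j => v' (σ j)) := by
      rw [hw', LN_hom]
      simp only [FreeLieAlgebra.lift_of_apply, hv']
    rw [map_sub, map_sub, map_smul, e1, e2, e3]
    apply cx_ext
    · rw [map_sub, map_sub, map_smul, map_zero, (EE_val κ v').1,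
        (EE_val κ (fun k => v' (sw k))).1, (LN_Cx' n _).1]
      simp
    · rw [map_sub, map_sub, map_smul, map_zero, (EE_val κ v').2,
        (EE_val κ (fun k => v' (sw k))).2, (LN_Cx' n _).2, Pi1_perm, Pi1_perm, hσ1, hσ0]
      have e4 : ∑ j, gam κ j * Pi1 (fun k => v' (sw k)) j = ∑ j, gam κ (sw j) * Pi1 v' j := by
        rw [← Equiv.sum_comp sw (fun j => gam κ (sw j) * Pi1 v' j)]
        refine Finset.sum_congr rfl fun j _ => ?_
        rw [Pi1_perm]
        congr 2
        rw [hsw, Equiv.swap_apply_self]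
      have e5 : ∑ j, gam κ j * Pi1 v' j - ∑ j, gam κ (sw j) * Pi1 v' j
          = (gam κ 0 - gam κ i) * (Pi1 v' 0 - Pi1 v' i) := by
        rw [← Finset.sum_sub_distrib, Finset.sum_eq_add (0 : Fin (n + 2)) i hi0.symm]
        · rw [hsw, Equiv.swap_apply_left, Equiv.swap_apply_right]; ring
        · rintro c _ ⟨h1, h2⟩
          rw [hsw, Equiv.swap_apply_of_ne_of_ne h1 h2, sub_self]
        · intro h; exact absurd (Finset.mem_univ _) h
        · intro h; exact absurd (Finset.mem_univ _) h
      rw [e4, ← mul_sub, e5, smul_eq_mul]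
      ring
  have hkI := hK _ hk
  have hw'I : w' ∈ I := by
    have h1 : (gam κ 0 - gam κ i) • w' ∈ I := by
      have : (gam κ 0 - gam κ i) • w' = g - FreeLieAlgebra.lift F (ren sw) g
          - (g - FreeLieAlgebra.lift F (ren sw) g - (gam κ 0 - gam κ i) • w') := by abel
      rw [this]
      exact sub_mem (sub_mem hg hsg) hkI
    have h2 := I.smul_mem (gam κ 0 - gam κ i)⁻¹ h1
    rwa [smul_smul, inv_mul_cancel₀ (sub_ne_zero.mpr hi.symm), one_smul] at h2
  have h3 := hI (ren σ.symm) w' hw'I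
  rw [hw', ren_LN] at h3
  simpa [wn] using h3

theorem claimB [CharZero F] {I : LieIdeal F (L F)} (hI : IsT I) (hK : ∀ f ∈ K0 F, f ∈ I) {n : ℕ}
    {f : L F} (hf : f ∈ G F n) (hfI : f ∈ I) (hf0 : f ∉ K0 F) : wn F n ∈ I := by
  classical
  unfold G at hf
  rw [Finsupp.mem_span_range_iff_exists_finsupp] at hf
  obtain ⟨c, rfl⟩ := hf
  rw [mem_K0] at hf0
  push Not at hf0
  obtain ⟨v, hv⟩ := hf0
  cases n with
  | zero =>
    have key : ∀ χ : ℕ → F, (c.sum fun l a => a * χ (l 0)) ≠ 0 → wn F 0 ∈ I := by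
      intro χ hχ
      have h1 := hI (fun i => χ i • xx 0) _ hfI
      have e : FreeLieAlgebra.lift F (fun i => χ i • (xx 0 : L F))
          (c.sum fun i a => a • LN F (L F) 0 (fun j => xx (i j)))
          = (c.sum fun l a => a * χ (l 0)) • xx 0 := by
        unfold Finsupp.sum
        rw [map_sum, Finset.sum_smul]
        refine Finset.sum_congr rfl fun l _ => ?_
        rw [map_smul, LN_zero, FreeLieAlgebra.lift_of_apply, smul_smul]
      rw [e] at h1
      have h2 := I.smul_mem (c.sum fun l a => a * χ (l 0))⁻¹ h1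
      rw [smul_smul, inv_mul_cancel₀ hχ, one_smul] at h2
      exact h2
    by_contra hcon
    have h1 : ∀ χ : ℕ → F, (c.sum fun l a => a * χ (l 0)) = 0 := by
      intro χ
      by_contra h
      exact hcon (key χ h)
    apply hv
    unfold Finsupp.sum
    rw [map_sum]
    have e : ∀ l ∈ c.support, FreeLieAlgebra.lift F v (c l • LN F (L F) 0 (fun j => xx (l j)))
        = c l • v (l 0) := by
      intro l _
      rw [map_smul, LN_zero, FreeLieAlgebra.lift_of_apply]
    rw [Finset.sum_congr rfl e]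
    apply Cx.ext
    · show fstL _ = 0
      rw [map_sum]
      exact h1 fun i => (v i).1
    · show sndL _ = 0
      rw [map_sum]
      exact h1 fun i => (v i).2
  | succ n =>
    set κ : Fin (n + 2) → F := fun j => c.sum fun l a => a * Pi1 (fun k => v (l k)) j with hκ
    have hκ10 : κ 1 ≠ κ 0 := by
      intro h
      apply hv
      unfold Finsupp.sum
      rw [map_sum]
      have e : ∀ l ∈ c.support, FreeLieAlgebra.lift F v
          (c l • LN F (L F) (n + 1) (fun j => xx (l j)))
          = c l • LN F (Cx F) (n + 1) (fun k => v (l k)) := by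
        intro l _
        rw [map_smul, LN_hom]
        simp only [FreeLieAlgebra.lift_of_apply]
      rw [Finset.sum_congr rfl e]
      apply cx_ext
      · rw [map_sum, map_zero]
        refine Finset.sum_eq_zero fun l _ => ?_
        rw [map_smul, (LN_Cx' n _).1, smul_zero]
      · rw [map_sum, map_zero]
        have e2 : ∀ l ∈ c.support, sndL (c l • LN F (Cx F) (n + 1) (fun k => v (l k)))
            = (-1) ^ n * (c l * Pi1 (fun k => v (l k)) 1 - c l * Pi1 (fun k => v (l k)) 0) := by
          intro l _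
          rw [map_smul, (LN_Cx' n _).2, smul_eq_mul]
          ring
        rw [Finset.sum_congr rfl e2, ← Finset.mul_sum, Finset.sum_sub_distrib]
        show (-1) ^ n * (κ 1 - κ 0) = 0
        rw [h, sub_self, mul_zero]
    refine claimB2 hI hK κ hκ10 ?_
    set A : ℕ → Fin (n + 2) → F := fun i r => if r = 0 then (v i).2 else (v i).1 with hA
    have hS : ∀ S : Finset (Fin (n + 2)), FreeLieAlgebra.lift F
        (fun i => ∑ r ∈ S, A i r • (xx (r : ℕ) : L F))
        (c.sum fun i a => a • LN F (L F) (n + 1) (fun j => xx (i j))) ∈ I := fun S => hI _ _ hfI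
    have hS2 : ∑ S : Finset (Fin (n + 2)), ((-1 : F) ^ Sᶜ.card) • FreeLieAlgebra.lift F
        (fun i => ∑ r ∈ S, A i r • (xx (r : ℕ) : L F))
        (c.sum fun i a => a • LN F (L F) (n + 1) (fun j => xx (i j))) ∈ I :=
      sum_mem fun S _ => I.smul_mem _ (hS S)
    convert hS2 using 1
    symm
    have e1 : ∀ S : Finset (Fin (n + 2)), FreeLieAlgebra.lift F
        (fun i => ∑ r ∈ S, A i r • (xx (r : ℕ) : L F))
        (c.sum fun i a => a • LN F (L F) (n + 1) (fun j => xx (i j)))
        = ∑ l ∈ c.support, c l • LN F (L F) (n + 1)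
          (fun j => ∑ r ∈ S, A (l j) r • (xx (r : ℕ) : L F)) := by
      intro S
      unfold Finsupp.sum
      rw [map_sum]
      refine Finset.sum_congr rfl fun l _ => ?_
      rw [map_smul, LN_hom]
      simp only [FreeLieAlgebra.lift_of_apply]
    rw [Finset.sum_congr rfl fun S _ => by rw [e1 S, Finset.smul_sum], Finset.sum_comm]
    have e2 : ∀ l ∈ c.support, ∑ S : Finset (Fin (n + 2)), ((-1 : F) ^ Sᶜ.card) •
        c l • LN F (L F) (n + 1) (fun j => ∑ r ∈ S, A (l j) r • (xx (r : ℕ) : L F))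
        = ∑ ρ : Equiv.Perm (Fin (n + 2)), (c l * Pi1 (fun k => v (l k)) (ρ.symm 0)) •
          LN F (L F) (n + 1) (fun j => xx (ρ j : ℕ)) := by
      intro l _
      have e3 := polM (LN F (L F) (n + 1)) (fun j r => A (l j) r • (xx (r : ℕ) : L F))
      have e4 : ∀ S : Finset (Fin (n + 2)), ((-1 : F) ^ Sᶜ.card) •
          c l • LN F (L F) (n + 1) (fun j => ∑ r ∈ S, A (l j) r • (xx (r : ℕ) : L F))
          = c l • ((-1 : F) ^ Sᶜ.card) • LN F (L F) (n + 1)
            (fun j => ∑ r ∈ S, A (l j) r • (xx (r : ℕ) : L F)) := fun S => smul_comm _ _ _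
      rw [Finset.sum_congr rfl fun S _ => e4 S, ← Finset.smul_sum, e3, Finset.smul_sum]
      refine Finset.sum_congr rfl fun ρ _ => ?_
      rw [MultilinearMap.map_smul_univ, smul_smul]
      congr 2
      unfold Pi1
      refine Finset.prod_congr rfl fun j _ => ?_
      show (if ρ j = 0 then (v (l j)).2 else (v (l j)).1)
        = if j = ρ.symm 0 then (v (l j)).2 else (v (l j)).1
      by_cases h : ρ j = 0
      · rw [if_pos h, if_pos (by rw [← h, Equiv.symm_apply_apply])]
      · rw [if_neg h, if_neg]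
        intro h'
        apply h
        rw [h', Equiv.apply_symm_apply]
    rw [Finset.sum_congr rfl e2, Finset.sum_comm]
    refine Finset.sum_congr rfl fun ρ _ => ?_
    rw [← Finset.sum_smul]
    rfl

end Claims


/-! ## A nilpotent quotient -/

section Nil

variable {F : Type u} [Field F]

open Polynomial

/-- divisibility of both components by `X ^ k` -/
def dv (k : ℕ) (x : Cx F[X]) : Prop := X ^ k ∣ x.1 ∧ X ^ k ∣ x.2

theorem dv_zero (k : ℕ) : dv k (0 : Cx F[X]) := ⟨dvd_zero _, dvd_zero _⟩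

theorem dv_add {k : ℕ} {x y : Cx F[X]} (hx : dv k x) (hy : dv k y) : dv k (x + y) :=
  ⟨dvd_add hx.1 hy.1, dvd_add hx.2 hy.2⟩

theorem dv_smul {k : ℕ} {x : Cx F[X]} (c : F) (hx : dv k x) : dv k (c • x) :=
  ⟨by rw [Cx.smul_fst, ← C_mul']; exact hx.1.mul_left _,
    by rw [Cx.smul_snd, ← C_mul']; exact hx.2.mul_left _⟩

theorem dv_lie {j k : ℕ} {x y : Cx F[X]} (hx : dv j x) (hy : dv k y) : dv (j + k) ⁅x, y⁆ := by
  refine ⟨dvd_zero _, ?_⟩
  rw [Cx.lie_snd, pow_add]
  refine dvd_sub (mul_dvd_mul hx.1 hy.2) ?_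
  have h := mul_dvd_mul hy.1 hx.2
  rwa [mul_comm (X ^ k) (X ^ j)] at h

theorem dv_mono {j k : ℕ} (h : j ≤ k) {x : Cx F[X]} (hx : dv k x) : dv j x :=
  ⟨(pow_dvd_pow X h).trans hx.1, (pow_dvd_pow X h).trans hx.2⟩

theorem lift_dv (v : ℕ → Cx F[X]) (hv : ∀ i, dv 1 (v i)) (f : L F) :
    dv 1 (FreeLieAlgebra.lift F v f) := by
  let K : LieSubalgebra F (L F) :=
    { carrier := {f | dv 1 (FreeLieAlgebra.lift F v f)}
      zero_mem' := by
        show dv 1 (FreeLieAlgebra.lift F v 0)
        rw [map_zero]; exact dv_zero 1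
      add_mem' := by
        intro a b ha hb
        show dv 1 (FreeLieAlgebra.lift F v (a + b))
        rw [map_add]; exact dv_add ha hb
      smul_mem' := by
        intro t a ha
        show dv 1 (FreeLieAlgebra.lift F v (t • a))
        rw [map_smul]; exact dv_smul t ha
      lie_mem' := by
        intro a b ha hb
        show dv 1 (FreeLieAlgebra.lift F v ⁅a, b⁆)
        rw [LieHom.map_lie]; exact dv_mono (by norm_num) (dv_lie ha hb) }
  refine free_induction K (fun i => ?_) f
  show dv 1 (FreeLieAlgebra.lift F v (xx i))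
  rw [FreeLieAlgebra.lift_of_apply]
  exact hv i

theorem LN_dv (n : ℕ) (v : Fin (n + 1) → Cx F[X]) (hv : ∀ i, dv 1 (v i)) :
    dv (n + 1) (LN F (Cx F[X]) n v) := by
  induction n with
  | zero => exact hv 0
  | succ n ih =>
    rw [LN_succ]
    exact dv_lie (ih _ fun i => hv _) (hv _)

variable (F) in
/-- the T-ideal -/
noncomputable def T1 (N : ℕ) : LieIdeal F (L F) where
  carrier := {f | ∀ v : ℕ → Cx F[X], (∀ i, dv 1 (v i)) → dv (N + 1) (FreeLieAlgebra.lift F v f)}
  zero_mem' := fun v _ => by rw [map_zero]; exact dv_zero _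
  add_mem' := fun {a b} ha hb v hv => by rw [map_add]; exact dv_add (ha v hv) (hb v hv)
  smul_mem' := fun c a ha v hv => by rw [map_smul]; exact dv_smul c (ha v hv)
  lie_mem := fun {x m} hm v hv => by
    rw [LieHom.map_lie]
    exact dv_mono (by omega) (dv_lie (lift_dv v hv x) (hm v hv))

theorem mem_T1 {N : ℕ} {f : L F} : f ∈ T1 F N ↔ ∀ v : ℕ → Cx F[X], (∀ i, dv 1 (v i)) →
    dv (N + 1) (FreeLieAlgebra.lift F v f) := Iff.rfl

theorem isT_T1 (N : ℕ) : IsT (T1 F N) := by
  intro g f hf
  rw [mem_T1]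
  intro v hv
  rw [lift_lift]
  exact hf _ fun i => lift_dv v hv (g i)

theorem K0_le_T1 [CharZero F] (N : ℕ) : ∀ f ∈ K0 F, f ∈ T1 F N := by
  intro f hf
  rw [mem_K0] at hf
  rw [mem_T1]
  intro v _
  have h : ∀ t : F, Cx.map (aeval t) (FreeLieAlgebra.lift F v f) = (0 : Cx F) := by
    intro t
    have e : (Cx.map (aeval t : F[X] →ₐ[F] F)).comp (FreeLieAlgebra.lift F v)
        = FreeLieAlgebra.lift F (fun i => Cx.map (aeval t : F[X] →ₐ[F] F) (v i)) := by
      apply FreeLieAlgebra.hom_ext
      intro i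
      simp
    have e2 := congrArg (fun φ : L F →ₗ⁅F⁆ Cx F => φ f) e
    exact e2.trans (hf _)
  have h0 : FreeLieAlgebra.lift F v f = 0 := by
    apply Cx.ext
    · apply Polynomial.funext
      intro t
      have h1 : aeval t (FreeLieAlgebra.lift F v f).1 = (0 : F) := congrArg Prod.fst (h t)
      rw [coe_aeval_eq_eval] at h1
      rw [h1]
      exact (eval_zero).symm
    · apply Polynomial.funext
      intro t
      have h1 : aeval t (FreeLieAlgebra.lift F v f).2 = (0 : F) := congrArg Prod.snd (h t)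
      rw [coe_aeval_eq_eval] at h1
      rw [h1]
      exact (eval_zero).symm
  rw [h0]
  exact dv_zero _

theorem wn_mem_T1 (N : ℕ) : wn F N ∈ T1 F N := by
  rw [mem_T1]
  intro v hv
  rw [wn, LN_hom]
  refine LN_dv N _ fun i => ?_
  rw [FreeLieAlgebra.lift_of_apply]
  exact hv _

/-- the constructor -/
def mkc {B : Type w} (a m : B) : Cx B := (a, m)

theorem mkc_fst {B : Type w} (a m : B) : (mkc a m).1 = a := rfl
theorem mkc_snd {B : Type w} (a m : B) : (mkc a m).2 = m := rfl

/-- a special value -/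
theorem LN_special {B : Type w} [CommRing B] [Algebra F B] (a b : B) (n : ℕ) :
    LN F (Cx B) n (fun j => if (j : ℕ) = 0 then mkc 0 b else mkc a 0)
      = mkc 0 ((-1) ^ n * a ^ n * b) := by
  induction n with
  | zero =>
    rw [LN_zero, pow_zero, pow_zero, one_mul, one_mul]
    exact if_pos rfl
  | succ n ih =>
    rw [LN_succ]
    have e : (fun i : Fin (n + 1) => if ((i.castSucc : Fin (n + 2)) : ℕ) = 0 then
        mkc 0 b else mkc a 0)
        = fun j : Fin (n + 1) => if (j : ℕ) = 0 then mkc 0 b else mkc a 0 := by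
      funext i; rfl
    rw [e, ih]
    have h : ((Fin.last (n + 1) : Fin (n + 2)) : ℕ) ≠ 0 := by simp
    rw [if_neg h]
    apply Cx.ext
    · rfl
    · rw [Cx.lie_snd, mkc_fst, mkc_snd, mkc_fst, mkc_snd, mkc_snd]
      ring

theorem wn_special {B : Type w} [CommRing B] [Algebra F B] (a b : B) (n : ℕ) :
    FreeLieAlgebra.lift F (fun j : ℕ => if j = 0 then mkc 0 b else mkc a 0)
      (wn F n) = mkc 0 ((-1) ^ n * a ^ n * b) := by
  rw [wn, LN_hom]
  simp only [FreeLieAlgebra.lift_of_apply]
  exact LN_special a b n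

theorem wn_not_mem_T1 {k N : ℕ} (h : k < N) : wn F k ∉ T1 F N := by
  intro hk
  rw [mem_T1] at hk
  have h1 := hk (fun j : ℕ => if j = 0 then mkc 0 X else mkc X 0) ?_
  · rw [wn_special] at h1
    have h2 : (X : F[X]) ^ (N + 1) ∣ (-1) ^ k * X ^ k * X := h1.2
    have h3 : (X : F[X]) ^ (N + 1) ∣ X ^ (k + 1) := by
      have e : (X : F[X]) ^ (k + 1) = (-1) ^ k * ((-1) ^ k * X ^ k * X) := by
        have h5 : ((-1 : F[X]) ^ k) * (-1) ^ k = 1 := by
          rw [← mul_pow]; simp
        calc (X : F[X]) ^ (k + 1) = 1 * X ^ (k + 1) := by rw [one_mul]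
          _ = ((-1 : F[X]) ^ k) * (-1) ^ k * X ^ (k + 1) := by rw [h5]
          _ = _ := by ring
      rw [e]
      exact h2.mul_left _
    have h4 := (pow_dvd_pow_iff (X_ne_zero) not_isUnit_X).mp h3
    omega
  · intro i
    by_cases hi : i = 0
    · rw [if_pos hi]
      exact ⟨dvd_zero _, by rw [pow_one]; exact dvd_rfl⟩
    · rw [if_neg hi]
      exact ⟨by rw [pow_one]; exact dvd_rfl, dvd_zero _⟩

/-- the quotient of the free Lie algebra -/
noncomputable def quo (I : LieIdeal F (L F)) : Alg F := ⟨L F ⧸ I⟩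

/-- the projection -/
noncomputable def prj (I : LieIdeal F (L F)) : L F →ₗ⁅F⁆ (L F ⧸ I) where
  toFun := LieSubmodule.Quotient.mk
  map_add' _ _ := rfl
  map_smul' _ _ := rfl
  map_lie' := rfl

theorem prj_eq_zero (I : LieIdeal F (L F)) (f : L F) : prj I f = 0 ↔ f ∈ I :=
  Submodule.Quotient.mk_eq_zero I.toSubmodule

theorem quo_lift (I : LieIdeal F (L F)) (g : ℕ → L F) (f : L F) :
    FreeLieAlgebra.lift F (fun i => prj I (g i)) f = prj I (FreeLieAlgebra.lift F g f) := by
  have e : FreeLieAlgebra.lift F (fun i => prj I (g i))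
      = (prj I).comp (FreeLieAlgebra.lift F g) := by
    apply FreeLieAlgebra.hom_ext
    intro i
    simp
  exact congrArg (fun φ : L F →ₗ⁅F⁆ (L F ⧸ I) => φ f) e

theorem quo_sat {I : LieIdeal F (L F)} (hI : IsT I) (f : L F) : Sat (quo I) f ↔ f ∈ I := by
  constructor
  · intro h
    have h1 := h (fun i => prj I (xx i))
    have h2 : FreeLieAlgebra.lift F (fun i => prj I (xx i)) f = 0 := h1
    rw [quo_lift, prj_eq_zero] at h2
    have e : FreeLieAlgebra.lift F (fun i => (xx i : L F)) = LieHom.id := by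
      apply FreeLieAlgebra.hom_ext
      intro i
      simp
    rw [e] at h2
    exact h2
  · intro hf v
    have hs : Function.Surjective (prj I) := Submodule.Quotient.mk_surjective I.toSubmodule
    choose g hg using fun i => hs (v i)
    have e : v = fun i => prj I (g i) := by
      funext i; exact (hg i).symm
    rw [e]
    show FreeLieAlgebra.lift F (fun i => prj I (g i)) f = 0
    rw [quo_lift, prj_eq_zero]
    exact hI g f hf

end Nil

/-! ## Conclusion -/

section Final

variable {F : Type u} [Field F] [CharZero F]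

theorem exists_component {I J : LieIdeal F (L F)} (hI : IsT I) {N : ℕ} {f : L F} (hf : f ∈ Dec F N)
    (hfI : f ∈ I) (hfJ : f ∉ J) : ∃ k < N, ∃ c ∈ G F k, c ∈ I ∧ c ∉ J := by
  obtain ⟨c, hc, rfl⟩ := hf
  have h1 := homog hI c hc hfI
  by_contra hcon
  push Not at hcon
  exact hfJ (sum_mem fun k hk => hcon k (Finset.mem_range.mp hk) _ (hc k)
    (h1 k (Finset.mem_range.mp hk)))

theorem compare {I J : LieIdeal F (L F)} (hI : IsT I) (hJ : IsT J) (hKI : ∀ f ∈ K0 F, f ∈ I)
    (hKJ : ∀ f ∈ K0 F, f ∈ J) : I ≤ J ∨ J ≤ I := by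
  by_contra hcon
  push Not at hcon
  obtain ⟨h1, h2⟩ := hcon
  obtain ⟨f, hfI, hfJ⟩ := SetLike.not_le_iff_exists.mp h1
  obtain ⟨g, hgJ, hgI⟩ := SetLike.not_le_iff_exists.mp h2
  obtain ⟨Nf, hNf⟩ := exists_Dec f
  obtain ⟨Ng, hNg⟩ := exists_Dec g
  obtain ⟨k, _, c, hc, hcI, hcJ⟩ := exists_component hI hNf hfI hfJ
  obtain ⟨m, _, d, hd, hdJ, hdI⟩ := exists_component hJ hNg hgJ hgI
  rcases le_total k m with hkm | hkm
  · exact hdI (claimC hI (claimB hI hKI hc hcI fun h => hcJ (hKJ _ h)) hkm d hd)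
  · exact hcJ (claimC hJ (claimB hJ hKJ hd hdJ fun h => hdI (hKI _ h)) hkm c hc)

theorem Mod_Th {U : Set (Alg F)} (hU : IsVariety U) : Mod (Th U : Set (L F)) = U := by
  obtain ⟨S, rfl⟩ := hU
  ext A
  constructor
  · intro h f hf
    exact h f fun B hB => hB f hf
  · intro h f hf
    exact hf A h

variable (F) in
/-- the variety -/
noncomputable def VV (N : ℕ) : Set (Alg F) := Mod (T1 F N : Set (L F))

theorem VV_chain {N : ℕ} (U W : Set (Alg F)) (hU : IsSub U (VV F N)) (hW : IsSub W (VV F N)) :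
    U ⊆ W ∨ W ⊆ U := by
  have hK : ∀ U, IsSub U (VV F N) → ∀ f ∈ K0 F, f ∈ Th U := by
    intro U hU f hf A hA
    exact hU.2 hA f (K0_le_T1 N f hf)
  rcases compare (isT_Th U) (isT_Th W) (hK U hU) (hK W hW) with h | h
  · right
    rw [← Mod_Th hU.1, ← Mod_Th hW.1]
    intro A hA f hf
    exact hA f (h hf)
  · left
    rw [← Mod_Th hU.1, ← Mod_Th hW.1]
    intro A hA f hf
    exact hA f (h hf)

theorem VV_degree (N : ℕ) : ¬ DefinedInDegree (VV F N) N := by
  rintro ⟨S, hS, hV⟩
  have h1 : ∀ f ∈ S, f ∈ K0 F := by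
    intro f hf
    by_contra hf0
    have hfT : f ∈ Th (VV F N) := by
      intro A hA
      rw [hV] at hA
      exact hA f hf
    obtain ⟨k, hk, c, hc, hcT, hc0⟩ := exists_component (isT_Th _) (degLE_Dec (hS f hf)) hfT hf0
    have hw : wn F k ∈ Th (VV F N) := by
      refine claimB (isT_Th _) ?_ hc hcT hc0
      intro g hg A hA
      exact hA g (K0_le_T1 N g hg)
    have hq : quo (T1 F N) ∈ VV F N := fun g hg => (quo_sat (isT_T1 N) g).mpr hg
    exact wn_not_mem_T1 hk ((quo_sat (isT_T1 N) _).mp (hw _ hq))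
  have h2 : cxAlg F ∈ VV F N := by
    rw [hV]
    intro f hf
    have := h1 f hf
    exact this _ rfl
  have h3 := h2 (wn F N) (wn_mem_T1 N)
  have h4 : FreeLieAlgebra.lift F (fun j : ℕ => if j = 0 then mkc (0 : F) 1 else mkc 1 0) (wn F N)
      = 0 := h3 _
  rw [wn_special] at h4
  have h5 : (-1 : F) ^ N * 1 ^ N * 1 = 0 := congrArg Prod.snd h4
  simp at h5

/-- **Main result.**  Over every field of characteristic `0` and for every `N` there is a variety
of Lie algebras whose subvarieties form a chain, in particular a distributive lattice, and which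
is not defined by identities of degree at most `N`. -/
theorem result (F : Type u) [Field F] [CharZero F] (N : ℕ) :
    ∃ V : Set (Alg F), IsVariety V ∧ Distributive V ∧
      (∀ U W, IsSub U V → IsSub W V → U ⊆ W ∨ W ⊆ U) ∧ ¬ DefinedInDegree V N :=
  ⟨VV F N, ⟨_, rfl⟩, distributive_of_chain VV_chain, VV_chain, VV_degree N⟩

end Final

end Pool.Agent.Results.MP_b4a71d_al.UnboundedDegree
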